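import Pool.Agent.Run7.h23.Gn.Idl
import Pool.Agent.N783.PF.Jac

/-!
# The 2-primary parts of the Tate-Shafarevich groups of Jacobians over all 2-extensions at the same time

Let `F` be a number field, `g ≥ 1`, `T` a finite set of primes of `F`, and `K₀` any finite extension of `F`.

Theorem. There are a finite set `S` of primes of `F` (not over `2`, not in `T`, completely split in `K₀`)
and `c > 0` such that for all large `B` at least `c` times the number of ALL monic polynomials
`f` of degree `2 g + 1` over `𝓞 F` without term of degree `2 g` and of height at most `B` are irreducible and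
minimal and have the following property. For EVERY finite Galois extension `K / F` of 2-power degree in which
* the primes over `2`, the primes in `S` and the real places of `F` split completely,
* every ramified prime `𝔭` is in `T` or `f` is irreducible modulo `𝔭`,

the Jacobian `J` of `y ^ 2 = f(x)` (an abelian variety of dimension `g`) satisfies `J(K) = 2 J(K)`, `J(K)[2] = 0` and
`Ш(J / K)[2 ^ ∞] = 0`.

`Ш(J / K)` is the Tate-Shafarevich group of the Weil restriction of `J` to `ℚ`, an abelian variety over `ℚ` of
dimension `g [K : ℚ]` (not used). There is no bound on the degree of `K`, its Galois group (any 2-group) or the number of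
ramified primes, and `c` and `S` do not depend on `K`. The conditions on `K` are stable under composita, so
for each of these `f` the fields `K` together form one Galois extension of `F`. If `K₀ / F` is Galois
of 2-power degree, the real places and the primes over `2` split completely in `K₀`, and `T` contains
the primes ramified in `K₀`, then `K₀` is one of the fields `K` for all the `f`.

The proof. We use the project PF of helper783 (all its lemmas on lattices, the reciprocity law, the
linear algebra and the estimates of the number of bad `f` are in the starting tree). For `f` in the family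
and not bad there is a subset `J` of `S` such that a group of classes over `F(θ)` (even valuations away from
`J`, conditions at `J`, at `2` and the real places) is trivial; it does not depend on `K`. The polynomial of the
theorem is the twist of `f` by the product of `J`. A class of the 2-Selmer group over `K` gives an element of
`K(θ)`; the group of all elements of `K(θ)` with the local conditions is stable under `Gal(K / F)`, so by Galois descent
for 2-extensions and odd degree (plan of helper874, over `k(t)`) it is enough to show that an element of `F(θ)` in it is a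
square. New here, compared with `K = F`:
* only the primes of `K(θ)` are used at which `f'(θ)` is a unit and the prime of `F` below is unramified;
  they are unramified over `F(θ)`; modulo a ramified prime `f` is irreducible and the valuation is even because the norm is
  a square; at a prime of degree one which divides `f'(θ)` the same is true if the valuations at the others are even;
* at the primes in `J` the field `F(θ)` is dense in the completions of `K(θ)`;
* the condition at `2` and the real places is transported along the automorphisms of `K`, and from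
  the completions of `K` to those of `F`, which are the same (an isometry with dense image of complete fields);
* in the family `f` is irreducible modulo all the primes dividing a fixed integer, also those which
  divide `2 g + 1` (there are irreducible polynomials with trace zero over all finite fields).

The lemmas are in `Pool/Agent/Run7/h23/Gn` (helper23).
-/

set_option autoImplicit false
set_option linter.all false

namespace Run7.h23.Old.UniformOddHyperelliptic

open Filter NumberField IsDedekindDomain Polynomial
open Pool.Agent.N874.Jac (UniquelyTwoDivisible ShaTwoTrivialReal)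
open scoped Classical

section defs

variable (F : Type) [Field F] [NumberField F]

/-- All monic polynomials of degree `2 g + 1` with coefficients in the ring of integers of `F`, without term
of degree `2 g`, such that all conjugates of the coefficient of `x ^ j` have absolute value at
most `B ^ (2 g + 1 - j)`. -/
def Polys (g B : ℕ) : Set ((𝓞 F)[X]) :=
  {f | f.Monic ∧ f.natDegree = 2 * g + 1 ∧ f.coeff (2 * g) = 0 ∧
    ∀ j ≤ 2 * g, ∀ σ : F →+* ℂ, ‖σ (f.coeff j : F)‖ ≤ (B : ℝ) ^ (2 * g + 1 - j)}

variable {F}

/-- The polynomial over the extension `K` of `F`. -/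
noncomputable def overK (K : Type) [Field K] [Algebra F K] (f : (𝓞 F)[X]) : K[X] :=
  (f.map (algebraMap (𝓞 F) F)).map (algebraMap F K)

/-- The equation `y ^ 2 = f(x)` is minimal: there is no prime `𝔭` such that `𝔭 ^ (2 i)` divides the coefficient
of `x ^ (2 g + 1 - i)` for all `i > 0`. -/
def IsMinimal (g : ℕ) (f : (𝓞 F)[X]) : Prop :=
  ∀ 𝔭 : Ideal (𝓞 F), 𝔭.IsPrime → 𝔭 ≠ ⊥ → ¬ ∀ j ≤ 2 * g, f.coeff j ∈ 𝔭 ^ (2 * (2 * g + 1 - j))

/-- `f` is irreducible modulo the prime `𝔭`. -/
def IrreducibleMod (𝔭 : HeightOneSpectrum (𝓞 F)) (f : (𝓞 F)[X]) : Prop :=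
  Irreducible (f.map (Ideal.Quotient.mk 𝔭.asIdeal))

variable (K : Type) [Field K] [NumberField K] [Algebra F K]

/-- The prime `𝔭` of `F` splits completely in `K`: for every prime `𝔓` over `𝔭` the square of `𝔓` does not divide
`𝔭` and every integer of `K` is congruent to an integer of `F` modulo `𝔓`. -/
def SplitsCompletely (𝔭 : HeightOneSpectrum (𝓞 F)) : Prop :=
  ∀ 𝔓 : HeightOneSpectrum (𝓞 K), 𝔭.asIdeal.map (algebraMap (𝓞 F) (𝓞 K)) ≤ 𝔓.asIdeal →
    ¬ 𝔭.asIdeal.map (algebraMap (𝓞 F) (𝓞 K)) ≤ 𝔓.asIdeal ^ 2 ∧
      ∀ y : 𝓞 K, ∃ x : 𝓞 F, y - algebraMap (𝓞 F) (𝓞 K) x ∈ 𝔓.asIdeal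

/-- The prime `𝔭` of `F` is ramified in `K`. -/
def Ramified (𝔭 : HeightOneSpectrum (𝓞 F)) : Prop :=
  ∃ 𝔓 : HeightOneSpectrum (𝓞 K), 𝔭.asIdeal.map (algebraMap (𝓞 F) (𝓞 K)) ≤ 𝔓.asIdeal ^ 2

/-- The conditions on the Galois extension `K / F`: the degree is a power of two, the primes over `2`, the
primes in `S` and the real places (for a Galois extension: every embedding of `F` in `ℝ` extends to
`K`) split completely, and every ramified prime is in `T` or `f` is irreducible modulo it. -/
structure Allowed (S T : Finset (HeightOneSpectrum (𝓞 F))) (f : (𝓞 F)[X]) : Prop where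
  degree : ∃ n : ℕ, Module.finrank F K = 2 ^ n
  two : ∀ 𝔭 : HeightOneSpectrum (𝓞 F), (2 : 𝓞 F) ∈ 𝔭.asIdeal → SplitsCompletely K 𝔭
  split : ∀ 𝔭 ∈ S, SplitsCompletely K 𝔭
  real : ∀ ρ : F →+* ℝ, ∃ τ : K →+* ℝ, ∀ x : F, τ (algebraMap F K x) = ρ x
  ramified : ∀ 𝔭 : HeightOneSpectrum (𝓞 F), Ramified K 𝔭 → 𝔭 ∈ T ∨ IrreducibleMod 𝔭 f

/-- The property of `f` in the theorem: over all allowed extensions `K` the group `J(K)` is uniquely divisible
by two and the 2-primary part of the Tate-Shafarevich group of the Jacobian is zero (finite places and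
real embeddings of `K`). -/
def Uniform (S T : Finset (HeightOneSpectrum (𝓞 F))) (f : (𝓞 F)[X]) : Prop :=
  ∀ (K : Type) [Field K] [NumberField K] [Algebra F K] [IsGalois F K], Allowed K S T f →
    UniquelyTwoDivisible (overK K f) ∧ ShaTwoTrivialReal (overK K f) (𝓞 K)

end defs

theorem ht_iff {F : Type} [Field F] [NumberField F] (g B : ℕ) (f : (𝓞 F)[X]) :
    Pool.Agent.N783.PF.Ht g B f ↔ f ∈ Polys F g B :=
  ⟨fun h => ⟨h.mon, h.deg, h.tr, h.ht⟩, fun h => ⟨h.1, h.2.1, h.2.2.1, h.2.2.2⟩⟩

theorem mem (F : Type) [Field F] [NumberField F] (g B : ℕ) : (X ^ (2 * g + 1) : (𝓞 F)[X]) ∈ Polys F g B := by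
  refine ⟨monic_X_pow _, natDegree_X_pow _, ?_, fun j hj σ => ?_⟩
  · rw [coeff_X_pow, if_neg (by omega)]
  · rw [coeff_X_pow, if_neg (by omega)]
    simp

/-- For every number field `F`, every `g ≥ 1`, every finite set `T` of primes of `F` and every finite
extension `K₀` of `F` there are a finite set `S` of primes of `F`, not over `2`, not in `T` and completely split in
`K₀`, and `c > 0` such that for all large `B` at least `c` times the number of all monic polynomials `f` of
degree `2 g + 1` over the ring of integers without term of degree `2 g` and of height at most `B` are irreducible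
over `F`, minimal, and have the property: for EVERY finite Galois extension `K` of `F` of 2-power degree in
which the primes over `2`, the primes in `S` and the real places split completely and every ramified prime
is in `T` or is a prime modulo which `f` is irreducible, the Jacobian `J` of `y ^ 2 = f(x)` has a group `J(K)`
which is uniquely divisible by two and `Ш(J / K)[2 ^ ∞] = 0`. -/
theorem result (F : Type) [Field F] [NumberField F] (g : ℕ) (hg : 1 ≤ g)
    (T : Finset (HeightOneSpectrum (𝓞 F))) (K₀ : Type) [Field K₀] [NumberField K₀] [Algebra F K₀] :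
    ∃ S : Finset (HeightOneSpectrum (𝓞 F)),
      (∀ 𝔭 ∈ S, (2 : 𝓞 F) ∉ 𝔭.asIdeal ∧ 𝔭 ∉ T ∧ SplitsCompletely K₀ 𝔭) ∧
      ∃ c : ℝ, 0 < c ∧ ∀ᶠ B : ℕ in atTop,
        (Polys F g B).Finite ∧ 0 < (Polys F g B).ncard ∧
        c * ((Polys F g B).ncard : ℝ) ≤
          (({f ∈ Polys F g B | Irreducible (f.map (algebraMap (𝓞 F) F)) ∧ IsMinimal g f ∧
            Uniform S T f}).ncard : ℝ) := by
  obtain ⟨S, hS, c, hc, B₀, h⟩ := Run7.h23.Gn.mainI g F hg T K₀
  refine ⟨S, fun v hv => ?_, c, hc, ?_⟩
  · obtain ⟨h1, h2, h3⟩ := hS v hv
    exact ⟨h1, h2, Run7.h23.Gn.spI_of_sp h3⟩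
  filter_upwards [eventually_ge_atTop B₀] with B hB
  obtain ⟨hfin, hle⟩ := h B hB
  have hset : {f : (𝓞 F)[X] | Pool.Agent.N783.PF.Ht g B f} = Polys F g B := by
    ext f
    exact ht_iff g B f
  rw [hset] at hfin hle
  refine ⟨hfin, (Set.ncard_pos hfin).2 ⟨_, mem F g B⟩, hle.trans ?_⟩
  have h3 : {f : (𝓞 F)[X] | Pool.Agent.N783.PF.Ht g B f ∧
      Irreducible (Pool.Agent.N783.PF.fF f) ∧ Pool.Agent.N783.PF.Min g f ∧
      Run7.h23.Gn.GoodP S T f} ⊆
      {f ∈ Polys F g B | Irreducible (f.map (algebraMap (𝓞 F) F)) ∧ IsMinimal g f ∧
        Uniform S T f} := by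
    rintro f ⟨hf, hi, hm, hg'⟩
    refine ⟨(ht_iff g B f).1 hf, hi, hm, ?_⟩
    intro K _ _ _ _ hK
    obtain ⟨n, hn⟩ := hK.degree
    obtain ⟨h4, h5⟩ := hg' K n hn (fun v hv => Run7.h23.Gn.sp_of_spI (hK.two v hv))
      (fun v hv => Run7.h23.Gn.sp_of_spI (hK.split v hv)) hK.real
      (fun v hv => hK.ramified v (by
        by_contra hc
        exact hv (Run7.h23.Gn.un_of_not hc)))
    have h6 := Pool.Agent.N783.PF.jac (f := f.map (algebraMap (𝓞 F) (𝓞 K))) (hf.mon.map _)
      (by rw [hf.mon.natDegree_map, hf.deg]; exact odd_two_mul_add_one g) h4 h5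
    rw [Run7.h23.Gn.fF_map] at h6
    exact h6
  have h4 := Set.ncard_le_ncard h3 (hfin.subset fun f hf => hf.1)
  exact_mod_cast h4

end Run7.h23.Old.UniformOddHyperelliptic
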